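import Pool.Agent.H73.DA.Stm

set_option autoImplicit false

/-! # The stub COMB of the project DA (helper90) -/

namespace Pool.Agent.H90.DA

open Pool.Agent.H73.DA

section
variable {κ : Type} [DecidableEq κ] {r : Finset κ → ℕ}

lemma closed_eq (hr : RankFn r) {A B : Finset κ} (hB : ClosedIn r A B) {C : Finset κ}
    (hC : C ⊆ A) (hBC : B ⊆ C) (h : r C ≤ r B) : B = C := by
  refine Finset.Subset.antisymm hBC fun i hi => hB.2 i (hC hi) ?_
  exact le_antisymm ((hr.mono _ _ (Finset.insert_subset hi hBC)).trans h)
    (hr.mono _ _ (Finset.subset_insert _ _))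

lemma closed_inter_aux (hr : RankFn r) {A B C : Finset κ} (hB : ClosedIn r A B) (i : κ)
    (hi : i ∈ A) (h : r (insert i (B ∩ C)) = r (B ∩ C)) : i ∈ B := by
  by_contra hn
  apply hn
  apply hB.2 i hi
  have h1 := hr.sub B (insert i (B ∩ C))
  have h2 : B ∪ insert i (B ∩ C) = insert i B := by
    ext x; simp only [Finset.mem_union, Finset.mem_insert, Finset.mem_inter]; tauto
  have h3 : B ∩ insert i (B ∩ C) = B ∩ C := by
    ext x; simp only [Finset.mem_inter, Finset.mem_insert]
    constructor
    · rintro ⟨h4, rfl | h5⟩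
      · exact absurd h4 hn
      · exact h5
    · rintro ⟨h4, h5⟩; exact ⟨h4, Or.inr ⟨h4, h5⟩⟩
  rw [h2, h3, h] at h1
  exact le_antisymm (by omega) (hr.mono _ _ (Finset.subset_insert _ _))

lemma closed_inter (hr : RankFn r) {A B C : Finset κ} (hB : ClosedIn r A B)
    (hC : ClosedIn r A C) : ClosedIn r A (B ∩ C) := by
  refine ⟨Finset.inter_subset_left.trans hB.1, fun i hi h => Finset.mem_inter.2
    ⟨closed_inter_aux hr hB i hi h, ?_⟩⟩
  rw [Finset.inter_comm] at h
  exact closed_inter_aux hr hC i hi h

/-- subsets of `A` of rank at most one have at most one element -/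
lemma card_le_one (hr : RankFn r) {A B : Finset κ} (hA : ∀ x ∈ A, ∀ y ∈ A, x ≠ y → 2 ≤ r {x, y})
    (hB : B ⊆ A) (h : r B ≤ 1) : B.card ≤ 1 := by
  rw [Finset.card_le_one]
  intro x hx y hy
  by_contra hne
  have h1 := hA x (hB hx) y (hB hy) hne
  have h2 := hr.mono {x, y} B (by intro z hz; simp at hz; rcases hz with rfl | rfl <;> assumption)
  omega

/-- if all weights are in `[0, 1]` at most one closed set is heavy -/
lemma light (hr : RankFn r) {A : Finset κ} (hA : ∀ x ∈ A, ∀ y ∈ A, x ≠ y → 2 ≤ r {x, y})
    (hne : A.Nonempty) (h3 : r A ≤ 3) (W : κ → ℝ) (h0 : ∀ x ∈ A, 0 ≤ W x) (h1 : ∀ x ∈ A, W x ≤ 1)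
    (hW : ∑ x ∈ A, W x = r A) :
    ∃ h ∈ A, ∀ B, ClosedIn r A B → B ≠ A → (r B : ℝ) < ∑ x ∈ B, W x → h ∈ B := by
  have hv : ∀ B, ClosedIn r A B → B ≠ A → (r B : ℝ) < ∑ x ∈ B, W x → r B = 2 ∧ r A = 3 := by
    intro B hB hBA hh
    have hlt : r B < r A := by
      by_contra hcon
      exact hBA (closed_eq hr hB (Finset.Subset.refl _) hB.1 (by omega))
    have h2 : 2 ≤ r B := by
      by_contra hcon
      have hc := card_le_one hr hA hB.1 (by omega)
      rcases Nat.lt_or_ge B.card 1 with hc0 | hc1
      · have : B = ∅ := Finset.card_eq_zero.1 (by omega)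
        subst this
        simp only [Finset.sum_empty] at hh
        have : (0 : ℝ) ≤ r ∅ := by positivity
        linarith
      · obtain ⟨x, rfl⟩ := Finset.card_eq_one.1 (le_antisymm hc hc1)
        have hx : x ∈ A := hB.1 (Finset.mem_singleton_self x)
        rw [Finset.sum_singleton] at hh
        have hx1 := h1 x hx
        have hr0 : r {x} = 0 := by
          by_contra hr0
          have : (1 : ℝ) ≤ r {x} := by exact_mod_cast Nat.one_le_iff_ne_zero.2 hr0
          linarith
        -- rank zero: compare with a second element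
        by_cases hsec : ∃ y ∈ A, y ≠ x
        · obtain ⟨y, hy, hyx⟩ := hsec
          have hp := hA x hx y hy (Ne.symm hyx)
          have hs := hr.sub {x} {y}
          have hcy := hr.card {y}
          have : ({x} : Finset κ) ∪ {y} = {x, y} := rfl
          rw [this] at hs
          simp at hcy
          omega
        · push Not at hsec
          apply hBA
          ext z
          constructor
          · intro hz; rw [Finset.mem_singleton] at hz; subst hz; exact hx
          · intro hz; rw [Finset.mem_singleton]; exact hsec z hz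
    omega
  by_cases hex : ∃ B, ClosedIn r A B ∧ B ≠ A ∧ (r B : ℝ) < ∑ x ∈ B, W x
  · obtain ⟨Y, hY, hYA, hYh⟩ := hex
    obtain ⟨hY2, hA3⟩ := hv Y hY hYA hYh
    have hYn : Y.Nonempty := by
      rw [Finset.nonempty_iff_ne_empty]
      rintro rfl
      have := hr.card ∅
      simp at this
      omega
    obtain ⟨h, hh⟩ := hYn
    refine ⟨h, hY.1 hh, fun B hB hBA hBh => ?_⟩
    obtain ⟨hB2, -⟩ := hv B hB hBA hBh
    suffices B = Y by rw [this]; exact hh
    by_contra hne
    have hI : r (B ∩ Y) ≤ 1 := by
      by_contra hcon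
      have hc := closed_inter hr hB hY
      have e1 := closed_eq hr hc hB.1 Finset.inter_subset_left (by omega)
      have e2 := closed_eq hr hc hY.1 Finset.inter_subset_right (by omega)
      exact hne (e1.symm.trans e2)
    have hIs : B ∩ Y ⊆ A := Finset.inter_subset_left.trans hB.1
    have hIc := card_le_one hr hA hIs hI
    have hIw : ∑ x ∈ B ∩ Y, W x ≤ 1 := by
      calc ∑ x ∈ B ∩ Y, W x ≤ ∑ x ∈ B ∩ Y, (1 : ℝ) :=
            Finset.sum_le_sum fun x hx => h1 x (hIs hx)
        _ = ((B ∩ Y).card : ℝ) := by simp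
        _ ≤ 1 := by exact_mod_cast hIc
    have hU : ∑ x ∈ B ∪ Y, W x ≤ 3 := by
      calc ∑ x ∈ B ∪ Y, W x ≤ ∑ x ∈ A, W x :=
            Finset.sum_le_sum_of_subset_of_nonneg (Finset.union_subset hB.1 hY.1)
              fun x hx _ => h0 x hx
        _ = 3 := by rw [hW, hA3]; norm_num
    have hs := Finset.sum_union_inter (s₁ := B) (s₂ := Y) (f := W)
    rw [hB2] at hBh
    rw [hY2] at hYh
    push_cast at hBh hYh
    linarith
  · push Not at hex
    obtain ⟨h, hh⟩ := hne
    refine ⟨h, hh, fun B hB hBA hBh => ?_⟩
    have := hex B hB hBA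
    linarith

end

theorem t : S_COMB := by
  intro ι σ _ _ r hr w a A hw hw1 ha hwall hpair hone hne hirr h3 hN
  have hs1 : ∀ B, NN (fun _ => 1) w a B =
      ∑ x ∈ B, Sum.elim (fun _ : ι => (1 : ℝ)) (fun j => (a j : ℝ) / (w j : ℝ)) x := by
    intro B; simp [NN]
  set T : ι ⊕ σ → ℝ := Sum.elim (fun _ : ι => (0 : ℝ)) (fun j => 1 - 1 / (w j : ℝ)) with hT
  set U : ι ⊕ σ → ℝ := Sum.elim (fun _ : ι => (1 : ℝ)) (fun j => (a j : ℝ) / (w j : ℝ)) with hU
  have hs2 : ∀ B, nu r w B = (r B : ℝ) - ∑ x ∈ B, T x := fun B => rfl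
  have hwr : ∀ j, (1 : ℝ) ≤ w j := fun j => by exact_mod_cast hw j
  have hinv0 : ∀ j, 0 < 1 / (w j : ℝ) := fun j => by have := hwr j; positivity
  have hinv1 : ∀ j, 1 / (w j : ℝ) ≤ 1 := fun j => by
    have := hwr j; rw [div_le_one (by linarith)]; exact this
  have hT0 : ∀ x, 0 ≤ T x := by
    rintro (i | j)
    · simp [hT]
    · have := hinv1 j; simp only [hT, Sum.elim_inr]; linarith
  have hU0 : ∀ x, 0 ≤ U x := by
    rintro (i | j)
    · simp [hU]
    · simp only [hU, Sum.elim_inr]; positivity
  have haw : ∀ j, (a j : ℝ) / (w j : ℝ) ≤ 1 / (w j : ℝ) := fun j => by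
    have h1 : (a j : ℝ) ≤ 1 := by exact_mod_cast ha j
    have := hwr j
    exact div_le_div_of_nonneg_right h1 (by linarith)
  -- the walls
  set wal : Finset (ι ⊕ σ) := A.filter (fun x => x.isRight) with hwal
  have hwalr : r wal = wal.card := by
    refine hwall wal (Finset.filter_subset _ _) fun x hx => ?_
    rw [hwal, Finset.mem_filter] at hx
    rcases x with i | j
    · simp at hx
    · exact ⟨j, rfl⟩
  have hwalA : wal.card ≤ r A := by
    rw [← hwalr]; exact hr.mono _ _ (Finset.filter_subset _ _)
  have hTA : ∑ x ∈ A, T x ≤ wal.card := by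
    have h1 : ∑ x ∈ A, T x = ∑ x ∈ wal, T x := by
      rw [hwal, Finset.sum_filter]
      refine Finset.sum_congr rfl fun x _ => ?_
      rcases x with i | j
      · simp [hT]
      · simp
    rw [h1]
    calc ∑ x ∈ wal, T x ≤ ∑ x ∈ wal, (1 : ℝ) := by
          refine Finset.sum_le_sum fun x _ => ?_
          rcases x with i | j
          · simp [hT]
          · have := hinv0 j; simp only [hT, Sum.elim_inr]; linarith
      _ = _ := by simp
  have hnu0 : 0 ≤ nu r w A := by
    rw [hs2]
    have : (wal.card : ℝ) ≤ r A := by exact_mod_cast hwalA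
    linarith
  set α : ℝ := nu r w A / NN (fun _ => 1) w a A with hα
  have hα0 : 0 ≤ α := div_nonneg hnu0 hN.le
  have hαN : α * NN (fun _ => 1) w a A = nu r w A := by
    rw [hα]; field_simp
  have hheavy : ∀ B, nu r w B * NN (fun _ => 1) w a A < nu r w A * NN (fun _ => 1) w a B →
      (r B : ℝ) < ∑ x ∈ B, (T x + α * U x) := by
    intro B hB
    rw [Finset.sum_add_distrib, ← Finset.mul_sum, ← hs1]
    rw [← hαN] at hB
    have h1 : nu r w B * NN (fun _ => 1) w a A <
        (α * NN (fun _ => 1) w a B) * NN (fun _ => 1) w a A := by linarith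
    have h2 := lt_of_mul_lt_mul_right h1 hN.le
    rw [hs2] at h2
    linarith
  have htot : ∑ x ∈ A, (T x + α * U x) = r A := by
    rw [Finset.sum_add_distrib, ← Finset.mul_sum, ← hs1, hαN, hs2]
    ring
  by_cases hα1 : α ≤ 1
  · obtain ⟨h, hh, hB⟩ := light hr hpair hne h3 (fun x => T x + α * U x)
      (fun x _ => add_nonneg (hT0 x) (mul_nonneg hα0 (hU0 x)))
      (by
        rintro (i | j) _
        · simp only [hT, hU, Sum.elim_inl]; linarith
        · simp only [hT, hU, Sum.elim_inr]
          have h1 := haw j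
          have h2 : α * ((a j : ℝ) / (w j : ℝ)) ≤ 1 * (1 / (w j : ℝ)) := by
            apply mul_le_mul hα1 h1 _ zero_le_one
            positivity
          linarith) htot
    exact ⟨h, hh, fun B hBc hBA hBh => hB B hBc hBA (hheavy B hBh)⟩
  · push Not at hα1
    have hlt : NN (fun _ => 1) w a A < nu r w A := by
      rw [← hαN]
      have := mul_lt_mul_of_pos_right hα1 hN
      linarith
    obtain ⟨x0, hx0⟩ := hne
    by_cases hc1 : A.card ≤ 1
    · -- one element
      have hAx : A = {x0} := by
        ext z
        rw [Finset.mem_singleton]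
        constructor
        · intro hz; exact Finset.card_le_one.1 hc1 z hz x0 hx0
        · rintro rfl; exact hx0
      refine ⟨x0, hx0, fun B hB hBA hBh => ?_⟩
      by_contra hn
      have hBe : B = ∅ := by
        ext z
        constructor
        · intro hz
          have := hB.1 hz
          rw [hAx, Finset.mem_singleton] at this
          subst this
          exact absurd hz hn
        · intro hz; simp at hz
      subst hBe
      have h1 := hheavy ∅ hBh
      simp only [Finset.sum_empty] at h1
      have : (0 : ℝ) ≤ r ∅ := by positivity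
      linarith
    · have hcard : r A + 1 ≤ A.card := by
        by_contra hcon
        have h1 := hirr {x0} (Finset.singleton_subset_iff.2 hx0) (Finset.singleton_nonempty _)
          (by rintro h; apply hc1; rw [← h]; simp)
        have h2 := hr.card {x0}
        have h4 := hr.card (A \ {x0})
        rw [Finset.card_sdiff_of_subset (Finset.singleton_subset_iff.2 hx0)] at h4
        simp only [Finset.card_singleton] at h2 h4
        omega
      set Z : Finset (ι ⊕ σ) := A.filter
        (fun x => Sum.elim (fun _ => false) (fun j => decide (a j = 0)) x = true) with hZ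
      have hZA : Z ⊆ A := Finset.filter_subset _ _
      have hZw : ∀ x ∈ Z, ∃ j : σ, x = Sum.inr j ∧ a j = 0 ∧ (2 : ℝ) ≤ w j := by
        intro x hx
        rw [hZ, Finset.mem_filter] at hx
        rcases x with i | j
        · simp at hx
        · obtain ⟨hxA, hx2⟩ := hx
          simp only [Sum.elim_inr, decide_eq_true_eq] at hx2
          refine ⟨j, rfl, hx2, ?_⟩
          have h1 : w j ≠ 1 := fun h => by
            have := hw1 j hxA h
            omega
          have h2 := hw j
          have : 2 ≤ w j := by omega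
          exact_mod_cast this
      have hZr : r Z = Z.card := hwall Z hZA fun x hx => by
        obtain ⟨j, hj, -⟩ := hZw x hx; exact ⟨j, hj⟩
      have hZle : Z.card ≤ r A := by rw [← hZr]; exact hr.mono _ _ hZA
      -- the deficiency
      have hdef : ∑ x ∈ A, (1 - T x - U x) = ∑ x ∈ Z, (1 - T x - U x) := by
        rw [hZ, Finset.sum_filter]
        refine Finset.sum_congr rfl fun x _ => ?_
        rcases x with i | j
        · simp [hT, hU]
        · simp only [hT, hU, Sum.elim_inr, decide_eq_true_eq]
          split_ifs with h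
          · rfl
          · have : a j = 1 := by have := ha j; omega
            rw [this]; push_cast; ring
      have hdef2 : ∑ x ∈ Z, (1 - T x - U x) ≤ Z.card * (1 / 2) := by
        calc ∑ x ∈ Z, (1 - T x - U x) ≤ ∑ x ∈ Z, (1 / 2 : ℝ) := by
              refine Finset.sum_le_sum fun x hx => ?_
              obtain ⟨j, rfl, hj0, hj2⟩ := hZw x hx
              simp only [hT, hU, Sum.elim_inr, hj0]
              have : 1 / (w j : ℝ) ≤ 1 / 2 := one_div_le_one_div_of_le (by norm_num) hj2
              push_cast
              linarith [zero_div (w j : ℝ)]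
          _ = _ := by simp
      have hsum : (A.card : ℝ) - ∑ x ∈ Z, (1 - T x - U x) < r A := by
        rw [← hdef]
        have h1 : ∑ x ∈ A, (1 - T x - U x) = (A.card : ℝ) - ∑ x ∈ A, T x - ∑ x ∈ A, U x := by
          rw [Finset.sum_sub_distrib, Finset.sum_sub_distrib]; simp
        rw [h1]
        rw [hs1, hs2] at hlt
        linarith
      have hcr : (r A : ℝ) + 1 ≤ A.card := by exact_mod_cast hcard
      have hZ3 : 3 ≤ Z.card := by
        by_contra hcon
        have : (Z.card : ℝ) ≤ 2 := by
          have : Z.card ≤ 2 := by omega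
          exact_mod_cast this
        linarith
      have hZ3' : Z.card = 3 := by omega
      have hA4 : A.card ≤ 4 := by
        by_contra hcon
        have h5 : (5 : ℝ) ≤ A.card := by
          have : 5 ≤ A.card := by omega
          exact_mod_cast this
        have h6 : (r A : ℝ) ≤ 3 := by exact_mod_cast h3
        rw [hZ3'] at hdef2
        push_cast at hdef2
        linarith
      have hd1 : (A \ Z).card = 1 := by
        rw [Finset.card_sdiff_of_subset hZA]; omega
      obtain ⟨h, hh⟩ := Finset.card_eq_one.1 hd1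
      have hhA : h ∈ A := by
        have : h ∈ A \ Z := by rw [hh]; exact Finset.mem_singleton_self h
        exact (Finset.mem_sdiff.1 this).1
      refine ⟨h, hhA, fun B hB hBA hBh => ?_⟩
      by_contra hn
      have hBZ : B ⊆ Z := by
        intro x hx
        by_contra hxZ
        have : x ∈ A \ Z := Finset.mem_sdiff.2 ⟨hB.1 hx, hxZ⟩
        rw [hh, Finset.mem_singleton] at this
        subst this
        exact hn hx
      have hBN : NN (fun _ => 1) w a B = 0 := by
        rw [hs1]
        refine Finset.sum_eq_zero fun x hx => ?_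
        obtain ⟨j, rfl, hj0, -⟩ := hZw x (hBZ hx)
        simp [hU, hj0]
      have hBnu : 0 ≤ nu r w B := by
        rw [hs2, hwall B hB.1 fun x hx => by
          obtain ⟨j, hj, -⟩ := hZw x (hBZ hx); exact ⟨j, hj⟩]
        have : ∑ x ∈ B, T x ≤ ∑ x ∈ B, (1 : ℝ) := by
          refine Finset.sum_le_sum fun x hx => ?_
          obtain ⟨j, rfl, -, -⟩ := hZw x (hBZ hx)
          have := hinv0 j
          simp only [hT, Sum.elim_inr]; linarith
        simp only [Finset.sum_const, nsmul_eq_mul, mul_one] at this
        linarith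
      rw [hBN, mul_zero] at hBh
      have := mul_nonneg hBnu hN.le
      linarith

end Pool.Agent.H90.DA
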